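import Pool.Agent.H6.TP.Targets

/-!
# From the energy at the top scale to the structure of windows: row UPM
-/

set_option autoImplicit false

open Finset Pool.Agent.H6.N4D

namespace Pool.Agent.H79.TP

open Pool.Agent.H6.TP

theorem pf_UPM (hCSA : T_CSA) (hPHS : T_PHS) : T_UPM := by
  intro s hs
  obtain ⟨R, hR⟩ := hCSA s hs
  refine ⟨R, fun η hη => ?_⟩
  obtain ⟨N₀, hN₀⟩ := hR η hη
  refine ⟨N₀ + 1, fun N n lam hN hlam hgen => ?_⟩
  have hN0 : (0 : ℝ) < N := by
    have : 0 < N := by omega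
    exact_mod_cast this
  apply Mx_le
  intro θ
  by_cases h : cor lam N n θ < 3 / 5
  · have h1 : (3 / 5 : ℝ) ≤ 2 / Real.pi := by
      rw [le_div_iff₀ Real.pi_pos]
      linarith [Real.pi_lt_d2]
    linarith
  · have hg := hgen θ (not_lt.1 h)
    obtain ⟨φ, hφ⟩ := (hPHS lam N n θ (by omega)).1
    have h1 := hN₀ N (by omega) n θ φ hg
    have h2 : (∑ m ∈ Ioc n (n + N), lam m * wv n θ φ m) / N ≤
        (∑ m ∈ Ioc n (n + N), |wv n θ φ m|) / N := by
      apply div_le_div_of_nonneg_right _ hN0.le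
      refine sum_le_sum fun m _ => ?_
      calc lam m * wv n θ φ m ≤ |lam m * wv n θ φ m| := le_abs_self _
        _ = |lam m| * |wv n θ φ m| := abs_mul _ _
        _ ≤ 1 * |wv n θ φ m| := mul_le_mul_of_nonneg_right (hlam m) (abs_nonneg _)
        _ = |wv n θ φ m| := one_mul _
    rw [hφ] at h2
    have h3 := (abs_le.1 h1).2
    linarith

end Pool.Agent.H79.TP
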